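import Pool.Agent.Cartan73.Final

set_option autoImplicit false

namespace Pool.Agent.Results.MP_bea28b_al.SameCartan967

open Pool.Cartan73

universe u

/-- **Negative answer to Q1.** There are a nonabelian finite simple group `G` (namely
`PSL(2,967)`) and a finite group `H` (namely an extension of a group of order `11^6` by
`PSL(2,7)`), not isomorphic to `G`, such that over every algebraically closed field `k` of
characteristic two the groups `G` and `H` have the same Cartan matrix. -/
theorem result :
    ∃ (G H : Type) (_ : Group G) (_ : Group H) (_ : Finite G) (_ : Finite H),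
      IsSimpleGroup G ∧ (∃ a b : G, a * b ≠ b * a) ∧ IsEmpty (G ≃* H) ∧
      ∀ (k : Type u) [Field k] [IsAlgClosed k] [CharP k 2], SameCartan k G H :=
  ⟨Matrix.ProjectiveSpecialLinearGroup (Fin 2) (ZMod 967), HH, inferInstance, inferInstance,
    inferInstance, inferInstance, simple_PSL, nonabelian_PSL, not_iso,
    fun k _ _ _ => sameCartan k⟩

end Pool.Agent.Results.MP_bea28b_al.SameCartan967
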